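import Pool.Agent.Helper24.AL.St
import Pool.Agent.Helper56.SW.Basic

/-!
# Project AL (MP_e188f1), module EQ: words of six letters
-/

set_option autoImplicit false

namespace Pool.Agent.Helper42.AL

open Finset Matrix
open Pool.Agent.Helper24.AL
open Pool.Agent.Helper56.SW (τ Γ I bx E Rel N Nq)
open Pool.Agent.Helper56.SW (E_cons_00 E_cons_01 E_cons_10 E_cons_11 E_nil mem_bx)

/-- the vectors `t`, `b` of a list of length three -/
private def ph : List (ℤ × ℤ) → (Fin 3 → ℤ) × (Fin 3 → ℤ)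
  | [p3, p2, p1] => (![p1.1, p2.1, p3.1], ![p2.2, p3.2, p1.2])
  | _ => (0, 0)

private lemma entries (l h1 k1 h2 k2 h3 k3 : ℤ) :
    E 1 l [(h3, k3), (h2, k2), (h1, k1)] 0 0 =
      ((1 + h1 * (l * k1)) * (1 + h2 * (l * k2)) + h1 * (l * k2)) * (1 + h3 * (l * k3)) +
      ((1 + h1 * (l * k1)) * h2 + h1) * (l * k3) ∧
    E 1 l [(h3, k3), (h2, k2), (h1, k1)] 0 1 =
      ((1 + h1 * (l * k1)) * (1 + h2 * (l * k2)) + h1 * (l * k2)) * h3 +
      ((1 + h1 * (l * k1)) * h2 + h1) ∧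
    E 1 l [(h3, k3), (h2, k2), (h1, k1)] 1 0 =
      ((l * k1) * (1 + h2 * (l * k2)) + l * k2) * (1 + h3 * (l * k3)) +
      ((l * k1) * h2 + 1) * (l * k3) ∧
    E 1 l [(h3, k3), (h2, k2), (h1, k1)] 1 1 =
      ((l * k1) * (1 + h2 * (l * k2)) + l * k2) * h3 + ((l * k1) * h2 + 1) := by
  have z01 : (1 : Matrix (Fin 2) (Fin 2) ℤ) 0 1 = 0 := rfl
  have z10 : (1 : Matrix (Fin 2) (Fin 2) ℤ) 1 0 = 0 := rfl
  have z00 : (1 : Matrix (Fin 2) (Fin 2) ℤ) 0 0 = 1 := rfl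
  have z11 : (1 : Matrix (Fin 2) (Fin 2) ℤ) 1 1 = 1 := rfl
  refine ⟨?_, ?_, ?_, ?_⟩ <;>
  · simp only [E_cons_00, E_cons_01, E_cons_10, E_cons_11, E_nil, z00, z01, z10, z11]
    ring

private lemma congr_facts (c : ℕ) (l h1 k1 h2 k2 h3 k3 : ℤ)
    (hr : Rel c 1 l 1 [(h3, k3), (h2, k2), (h1, k1)]) :
    (c : ℤ) ∣ l * (h1 * k1 - h3 * k2) ∧ (c : ℤ) ∣ l * (h2 * k1 - h3 * k3) ∧
    (c : ℤ) ∣ l * (h2 * k2 - h1 * k3) ∧ (c : ℤ) ∣ h1 + h2 + h3 + l * (h1 * h2 * k1) ∧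
    (c : ℤ) ∣ l * (k1 + k2 + k3 + l * (h3 * k2 * k3)) := by
  obtain ⟨m00, m01, m10, m11⟩ := hr
  obtain ⟨e00, e01, e10, e11⟩ := entries l h1 k1 h2 k2 h3 k3
  rw [e00] at m00
  rw [e01] at m01
  rw [e10] at m10
  rw [e11] at m11
  refine ⟨?_, ?_, ?_, ?_, ?_⟩
  · have := dvd_sub (m00.mul_right (1 + (l * k2) * h3))
      (m01.mul_right ((l * k2) * (1 + h3 * (l * k3)) + l * k3))
    obtain ⟨w, hw⟩ := this
    exact ⟨w, by rw [← hw]; ring⟩
  · have := dvd_sub (m11.mul_right (1 + h3 * (l * k3))) (m10.mul_right h3)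
    obtain ⟨w, hw⟩ := this
    exact ⟨w, by rw [← hw]; ring⟩
  · have := dvd_add (dvd_sub (dvd_sub m00 (m10.mul_right h1)) (m01.mul_right (l * k3)))
      (m11.mul_right (h1 * (l * k3)))
    obtain ⟨w, hw⟩ := this
    exact ⟨w, by rw [← hw]; ring⟩
  · have := dvd_sub (m01.mul_right (1 + h3 * (l * k3))) (m00.mul_right h3)
    obtain ⟨w, hw⟩ := this
    exact ⟨w, by rw [← hw]; ring⟩
  · have := dvd_sub (m10.mul_right (1 + (l * k2) * h3))
      (m11.mul_right ((l * k2) * (1 + h3 * (l * k3)) + l * k3))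
    obtain ⟨w, hw⟩ := this
    exact ⟨w, by rw [← hw]; ring⟩

private lemma of_unit {c : ℕ} {l x : ℤ} (hl : IsCoprime l (c : ℤ)) (h : (c : ℤ) ∣ l * x) :
    (c : ℤ) ∣ x := hl.symm.dvd_of_dvd_mul_left h

private lemma eqs_of_rel (c : ℕ) (l h1 k1 h2 k2 h3 k3 : ℤ) (hl : IsCoprime l (c : ℤ))
    (hr : Rel c 1 l 1 [(h3, k3), (h2, k2), (h1, k1)]) :
    Eqs c l ![h1, h2, h3] ![k2, k3, k1] := by
  obtain ⟨f1, f2, f3, f4, f5⟩ := congr_facts c l h1 k1 h2 k2 h3 k3 hr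
  have g1 := of_unit hl f1
  have g2 := of_unit hl f2
  have g3 := of_unit hl f3
  have g5 := of_unit hl f5
  have t0 : (![h1, h2, h3] : Fin 3 → ℤ) 0 = h1 := rfl
  have t1 : (![h1, h2, h3] : Fin 3 → ℤ) 1 = h2 := rfl
  have t2 : (![h1, h2, h3] : Fin 3 → ℤ) 2 = h3 := rfl
  have b0 : (![k2, k3, k1] : Fin 3 → ℤ) 0 = k2 := rfl
  have b1 : (![k2, k3, k1] : Fin 3 → ℤ) 1 = k3 := rfl
  have b2 : (![k2, k3, k1] : Fin 3 → ℤ) 2 = k1 := rfl
  obtain ⟨w1, q1⟩ := g1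
  obtain ⟨w2, q2⟩ := g2
  obtain ⟨w3, q3⟩ := g3
  obtain ⟨w4, q4⟩ := f4
  obtain ⟨w5, q5⟩ := g5
  refine ⟨?_, ?_, ?_⟩
  · intro i j
    fin_cases i <;> fin_cases j <;>
      simp only [Fin.zero_eta, Fin.mk_one, Fin.reduceFinMk, t0, t1, t2, b0, b1, b2]
    · exact ⟨0, by ring⟩
    · exact ⟨-w3, by linear_combination -q3⟩
    · exact ⟨w1, by linear_combination q1⟩
    · exact ⟨w3, by linear_combination q3⟩
    · exact ⟨0, by ring⟩
    · exact ⟨w2, by linear_combination q2⟩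
    · exact ⟨-w1, by linear_combination -q1⟩
    · exact ⟨-w2, by linear_combination -q2⟩
    · exact ⟨0, by ring⟩
  · have s : sg ![h1, h2, h3] = h1 + h2 + h3 := rfl
    have c2 : (c : ℤ) ∣ sg ![h1, h2, h3] + l * (h1 * h2 * k1) :=
      ⟨w4, by rw [s]; linear_combination q4⟩
    have c1 : (c : ℤ) ∣ sg ![h1, h2, h3] + l * (h1 * h3 * k3) :=
      ⟨w4 - l * h1 * w2, by rw [s]; linear_combination q4 - l * h1 * q2⟩
    have c0 : (c : ℤ) ∣ sg ![h1, h2, h3] + l * (h2 * h3 * k2) :=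
      ⟨w4 - l * h2 * w1, by rw [s]; linear_combination q4 - l * h2 * q1⟩
    intro i j k
    fin_cases i <;> fin_cases j <;> fin_cases k <;> intro hij hjk hik <;>
      first
        | exact absurd rfl hij
        | exact absurd rfl hjk
        | exact absurd rfl hik
        | skip
    · exact c2
    · exact c1
    · exact (by rw [mul_comm h2 h1]; exact c2 : (c : ℤ) ∣ sg ![h1, h2, h3] + l * (h2 * h1 * k1))
    · exact c0
    · exact (by rw [mul_comm h3 h1]; exact c1 : (c : ℤ) ∣ sg ![h1, h2, h3] + l * (h3 * h1 * k3))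
    · exact (by rw [mul_comm h3 h2]; exact c0 : (c : ℤ) ∣ sg ![h1, h2, h3] + l * (h3 * h2 * k2))
  · have s : sg ![k2, k3, k1] = k2 + k3 + k1 := rfl
    have d2 : (c : ℤ) ∣ sg ![k2, k3, k1] + l * (h3 * k2 * k3) :=
      ⟨w5, by rw [s]; linear_combination q5⟩
    have d1 : (c : ℤ) ∣ sg ![k2, k3, k1] + l * (h2 * k2 * k1) :=
      ⟨w5 + l * k2 * w2, by rw [s]; linear_combination q5 + l * k2 * q2⟩
    have d0 : (c : ℤ) ∣ sg ![k2, k3, k1] + l * (h1 * k3 * k1) :=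
      ⟨w5 + l * k3 * w1, by rw [s]; linear_combination q5 + l * k3 * q1⟩
    have sw : ∀ x y z : ℤ, x * y * z = x * z * y := fun x y z => by ring
    intro i j k
    fin_cases i <;> fin_cases j <;> fin_cases k <;> intro hij hjk hik <;>
      first
        | exact absurd rfl hij
        | exact absurd rfl hjk
        | exact absurd rfl hik
        | skip
    · exact d2
    · exact d1
    · exact (by rw [sw h3 k3 k2]; exact d2 : (c : ℤ) ∣ sg ![k2, k3, k1] + l * (h3 * k3 * k2))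
    · exact d0
    · exact (by rw [sw h2 k1 k2]; exact d1 : (c : ℤ) ∣ sg ![k2, k3, k1] + l * (h2 * k1 * k2))
    · exact (by rw [sw h1 k1 k3]; exact d0 : (c : ℤ) ∣ sg ![k2, k3, k1] + l * (h1 * k1 * k3))

/-- module EQ -/
theorem hEQ : StEQ := by
  classical
  intro c l A B _ hl
  unfold N1 Q6
  refine Finset.card_le_card_of_injOn ph ?_ ?_
  · intro L hL
    rw [mem_coe, mem_filter, mem_bx] at hL
    obtain ⟨⟨hlen, hmem⟩, hrel⟩ := hL
    obtain ⟨⟨h3, k3⟩, ⟨h2, k2⟩, ⟨h1, k1⟩, rfl⟩ := List.length_eq_three.1 hlen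
    have m3 := hmem (h3, k3) (by simp)
    have m2 := hmem (h2, k2) (by simp)
    have m1 := hmem (h1, k1) (by simp)
    rw [mem_coe, mem_filter]
    refine ⟨?_, eqs_of_rel c l h1 k1 h2 k2 h3 k3 hl hrel⟩
    change (![h1, h2, h3], ![k2, k3, k1]) ∈ Bx A B
    unfold Bx
    rw [mem_product, Fintype.mem_piFinset, Fintype.mem_piFinset]
    constructor
    · intro i
      fin_cases i
      · exact m1.1
      · exact m2.1
      · exact m3.1
    · intro i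
      fin_cases i
      · exact m2.2
      · exact m3.2
      · exact m1.2
  · intro L hL L' hL' he
    rw [mem_coe, mem_filter, mem_bx] at hL hL'
    obtain ⟨⟨h3, k3⟩, ⟨h2, k2⟩, ⟨h1, k1⟩, rfl⟩ := List.length_eq_three.1 hL.1.1
    obtain ⟨⟨h3', k3'⟩, ⟨h2', k2'⟩, ⟨h1', k1'⟩, rfl⟩ := List.length_eq_three.1 hL'.1.1
    have he1 : (![h1, h2, h3] : Fin 3 → ℤ) = ![h1', h2', h3'] := congrArg Prod.fst he
    have he2 : (![k2, k3, k1] : Fin 3 → ℤ) = ![k2', k3', k1'] := congrArg Prod.snd he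
    have a0 : h1 = h1' := congrFun he1 0
    have a1 : h2 = h2' := congrFun he1 1
    have a2 : h3 = h3' := congrFun he1 2
    have c0 : k2 = k2' := congrFun he2 0
    have c1 : k3 = k3' := congrFun he2 1
    have c2 : k1 = k1' := congrFun he2 2
    rw [a0, a1, a2, c0, c1, c2]

end Pool.Agent.Helper42.AL
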