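import Pool.Agent.Helper24.AL.St
import Pool.Agent.Helper56.SW.M_Tr

/-!
# Project AL (MP_e188f1), module TR: transfer to the integer model with one parameter
-/

set_option autoImplicit false

namespace Pool.Agent.Helper42.AL

open Finset Matrix
open Pool.Agent.Helper24.AL
open Pool.Agent.Helper56.SW

/-- `Nq` in the integer model, with explicit representatives -/
private theorem tr_ab (r c : ℕ) (a₁ a₂ : (ZMod c)ˣ) (H₁ H₂ : ℝ) (hc : 1 ≤ c) (hH₁ : 1 ≤ H₁)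
    (hH₂ : H₁ ≤ H₂) (a b : ℤ) (ha : (a : ZMod c) = (a₁ : ZMod c))
    (hb : (b : ZMod c) = - (a₂ : ZMod c)) :
    Nq (2 * r) c a₁ a₂ H₁ H₂ = N c a b r ⌊H₁⌋₊ ⌊H₂⌋₊ := by
  classical
  have : NeZero c := ⟨by omega⟩
  have hH1 : (0 : ℝ) ≤ H₁ := by linarith
  have hH2 : (0 : ℝ) ≤ H₂ := by linarith
  have hfl : ∀ (H : ℝ), 0 ≤ H → ∀ x : ℤ, |(x : ℝ)| ≤ H ↔ x ∈ I ⌊H⌋₊ := by
    intro H hH x
    rw [mem_I', Nat.le_floor_iff hH, Nat.cast_natAbs, Int.cast_abs]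
  have hcond : ∀ h : Fin (2 * r) → ℤ,
      ((∀ i : Fin (2 * r), |(h i : ℝ)| ≤ if (i : ℕ) % 2 = 0 then H₁ else H₂) ∧
      ∃ γ : ZMod c, γ ^ 2 = 1 ∧
        (List.ofFn fun i : Fin (2 * r) =>
          Tm ((if (i : ℕ) % 2 = 0 then (a₁ : ZMod c) else (a₂ : ZMod c)) * (h i : ZMod c))
            * Sm c).prod
          = γ • (1 : Matrix (Fin 2) (Fin 2) (ZMod c))) ↔
      M_Tr_L r h ∈ (bx (I ⌊H₁⌋₊) (I ⌊H₂⌋₊) r).filter fun l => ∃ γ ∈ Γ c, Rel c a b γ l := by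
    intro h
    rw [mem_filter, mem_bx, M_Tr_mem]
    have e1 : (∀ i : Fin (2 * r), |(h i : ℝ)| ≤ if (i : ℕ) % 2 = 0 then H₁ else H₂) ↔
        ∀ i : Fin (2 * r), if (i : ℕ) % 2 = 0 then h i ∈ I ⌊H₁⌋₊ else h i ∈ I ⌊H₂⌋₊ := by
      refine forall_congr' fun i => ?_
      split_ifs
      · exact hfl H₁ hH1 _
      · exact hfl H₂ hH2 _
    have e2 : (∃ γ ∈ Γ c, Rel c a b γ (M_Tr_L r h)) ↔ ∃ γ : ZMod c, γ ^ 2 = 1 ∧
        (List.ofFn fun i : Fin (2 * r) =>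
          Tm ((if (i : ℕ) % 2 = 0 then (a₁ : ZMod c) else (a₂ : ZMod c)) * (h i : ZMod c))
            * Sm c).prod
          = γ • (1 : Matrix (Fin 2) (Fin 2) (ZMod c)) := by
      simp only [M_Tr_rel_iff]
      rw [M_Tr_Gam c hc, M_Tr_prod (a₁ : ZMod c) (a₂ : ZMod c) a b ha hb r h]
      set M := (Int.castRingHom (ZMod c)).mapMatrix (E a b (M_Tr_L r h)) with hM
      have hsq : ((-1 : ZMod c) ^ r) * ((-1 : ZMod c) ^ r) = 1 := by
        rw [← mul_pow]; simp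
      constructor
      · rintro ⟨γ, hγ, h1⟩
        refine ⟨(-1) ^ r * γ, ?_, by rw [h1, smul_smul]⟩
        rw [mul_pow, hγ, mul_one, sq, hsq]
      · rintro ⟨γ, hγ, h1⟩
        refine ⟨(-1) ^ r * γ, ?_, ?_⟩
        · rw [mul_pow, hγ, mul_one, sq, hsq]
        · rw [← smul_smul, ← h1, smul_smul, hsq, one_smul]
    rw [e1, e2]
    simp [M_Tr_len]
  unfold Nq N
  rw [← Nat.card_eq_finsetCard]
  refine Nat.card_congr (Equiv.ofBijective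
    (fun h => ⟨M_Tr_L r h.1, (hcond h.1).1 h.2⟩) ⟨?_, ?_⟩)
  · intro h h' e
    exact Subtype.ext (M_Tr_inj r (Subtype.ext_iff.1 e))
  · rintro ⟨l, hl⟩
    have hl' := hl
    rw [mem_filter, mem_bx] at hl'
    obtain ⟨h, rfl⟩ := M_Tr_surj r l hl'.1.1
    exact ⟨⟨h, (hcond h).2 hl⟩, rfl⟩

/-- conjugation with `diag(a, 1)` -/
private theorem conj (a b : ℤ) (l : List (ℤ × ℤ)) :
    E a b l 0 0 = E 1 (a * b) l 0 0 ∧ E a b l 0 1 = a * E 1 (a * b) l 0 1 ∧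
    a * E a b l 1 0 = E 1 (a * b) l 1 0 ∧ E a b l 1 1 = E 1 (a * b) l 1 1 := by
  induction l with
  | nil =>
    have z01 : (1 : Matrix (Fin 2) (Fin 2) ℤ) 0 1 = 0 := rfl
    have z10 : (1 : Matrix (Fin 2) (Fin 2) ℤ) 1 0 = 0 := rfl
    refine ⟨rfl, ?_, ?_, rfl⟩
    · rw [E_nil, E_nil, z01, mul_zero]
    · rw [E_nil, E_nil, z10, mul_zero]
  | cons p t ih =>
    obtain ⟨h, k⟩ := p
    obtain ⟨i1, i2, i3, i4⟩ := ih
    rw [E_cons_00, E_cons_01, E_cons_10, E_cons_11, E_cons_00, E_cons_01, E_cons_10, E_cons_11]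
    refine ⟨?_, ?_, ?_, ?_⟩
    · rw [i1, i2]
      ring
    · rw [i1, i2]
      ring
    · rw [i4, ← i3]
      ring
    · rw [i4, ← i3]
      ring

private theorem rel_conj (c : ℕ) (a b γ : ℤ) (ha : IsCoprime a (c : ℤ)) (l : List (ℤ × ℤ)) :
    Rel c a b γ l ↔ Rel c 1 (a * b) γ l := by
  obtain ⟨h1, h2, h3, h4⟩ := conj a b l
  unfold Pool.Agent.Helper56.SW.Rel
  rw [h1, h2, ← h3, h4]
  have e : ∀ x : ℤ, (c : ℤ) ∣ a * x ↔ (c : ℤ) ∣ x := fun x =>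
    ⟨fun h => ha.symm.dvd_of_dvd_mul_left h, fun h => h.mul_left a⟩
  rw [e, e]

private theorem map_E_congr (c : ℕ) (a b b' : ℤ) (hb : (b : ZMod c) = (b' : ZMod c))
    (l : List (ℤ × ℤ)) : (Int.castRingHom (ZMod c)).mapMatrix (E a b l) =
      (Int.castRingHom (ZMod c)).mapMatrix (E a b' l) := by
  induction l with
  | nil => rw [E_nil, E_nil]
  | cons p t ih =>
    rw [E_cons, E_cons, map_mul, map_mul, ih]
    congr 1
    ext i j
    fin_cases i <;> fin_cases j <;> simp [ul, hb]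

private theorem rel_congr (c : ℕ) (a b b' γ : ℤ) (hb : (b : ZMod c) = (b' : ZMod c))
    (l : List (ℤ × ℤ)) : Rel c a b γ l ↔ Rel c a b' γ l := by
  rw [M_Tr_rel_iff, M_Tr_rel_iff, map_E_congr c a b b' hb l]

/-- module TR -/
theorem hTR : StTR := by
  classical
  intro r c a₁ a₂ H₁ H₂ hc hH₁ hH₂
  have : NeZero c := ⟨by omega⟩
  have hcop : ∀ u : (ZMod c)ˣ, IsCoprime (((u : ZMod c).val : ℕ) : ℤ) (c : ℤ) := fun u =>
    Nat.isCoprime_iff_coprime.2 (ZMod.val_coe_unit_coprime u)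
  have hcast : ∀ u : (ZMod c)ˣ, ((((u : ZMod c).val : ℕ) : ℤ) : ZMod c) = u := fun u => by
    push_cast
    rw [ZMod.natCast_zmod_val]
  have ha := hcast a₁
  have hb : (((((-a₂ : (ZMod c)ˣ) : ZMod c).val : ℕ) : ℤ) : ZMod c) = - (a₂ : ZMod c) := by
    rw [hcast (-a₂)]; simp
  rw [tr_ab r c a₁ a₂ H₁ H₂ hc hH₁ hH₂ _ _ ha hb]
  unfold N
  congr 1
  refine Finset.filter_congr fun l _ => ?_
  refine exists_congr fun γ => and_congr_right fun _ => ?_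
  rw [rel_conj c _ _ _ (hcop a₁)]
  refine rel_congr c 1 _ _ _ ?_ l
  rw [hcast (-(a₁ * a₂))]
  push_cast
  rw [ZMod.natCast_zmod_val, ZMod.natCast_zmod_val]
  ring

end Pool.Agent.Helper42.AL
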