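import Pool.Agent.Helper79.AL.St2

/-! # Project AL (MP_2b6189_al), module VPF: `v_p` is fixed by `SL2(q)` -/

set_option autoImplicit false

namespace Pool.Agent.Helper42.AL

open Matrix ComplexConjugate Pool.Agent.Helper94.YG
open Pool.Agent.Helper94.YF hiding StORB
open Pool.Agent.Helper89.OS Pool.Agent.Helper89.OC Pool.Agent.Helper79.AL

/-- a norm preserving linear map has no eigenvalue of absolute value smaller than `1` -/
private theorem vpf_zero {I : Type} [Fintype I] (u δ : I → ℂ) (a : ℂ) (ha : ‖a‖ < 1)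
    (hu : ∀ i, u i = a * δ i) (hn : ∑ i, ‖u i‖ ^ 2 = ∑ i, ‖δ i‖ ^ 2) : ∀ i, δ i = 0 := by
  have h1 : ∑ i, ‖u i‖ ^ 2 = ‖a‖ ^ 2 * ∑ i, ‖δ i‖ ^ 2 := by
    rw [Finset.mul_sum]
    apply Finset.sum_congr rfl
    intro i _
    rw [hu i, norm_mul]
    ring
  have h2 : ‖a‖ ^ 2 < 1 := by
    have h0 : 0 ≤ ‖a‖ := norm_nonneg a
    nlinarith
  have h3 : ∑ i, ‖δ i‖ ^ 2 = 0 := by
    have h4 : 0 ≤ ∑ i, ‖δ i‖ ^ 2 := Finset.sum_nonneg fun i _ => sq_nonneg _
    rw [h1] at hn
    nlinarith
  intro i
  have h5 := (Finset.sum_eq_zero_iff_of_nonneg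
    (fun i _ => sq_nonneg ‖δ i‖)).mp h3 i (Finset.mem_univ i)
  exact norm_eq_zero.mp (pow_eq_zero_iff (two_ne_zero) |>.mp h5)

open Classical in
/-- the action of `s` on `v_p` -/
private theorem vpf_sv {I : Type} [Fintype I] [DecidableEq I] {p : ℕ} (X : PD I p 1) (j : I) :
    ∑ k, X.s j k * (vp X k : ℂ) =
      -(vp X j : ℂ) + ((p : ℂ) + 1) * (if X.t j = 1 then 0 else (X.y j : ℂ)) := by
  have hinv : ∀ c i, (fun i => if i = X.o then (1 : ℂ) else 0) (X.pi c i) =
      (fun i => if i = X.o then (1 : ℂ) else 0) i := by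
    intro c i
    by_cases hi : i = X.o
    · simp only [hi, X.pi_o c]
    · have h1 : X.pi c i ≠ X.o := by
        intro h
        apply hi
        have h2 : X.pi c⁻¹ (X.pi c i) = i := by
          rw [← X.pi_mul, inv_mul_cancel, X.pi_one]
        rw [h, X.pi_o] at h2
        exact h2.symm
      simp only [hi, h1, if_false]
  have hsup : ∀ i, (fun i => if i = X.o then (1 : ℂ) else 0) i ≠ 0 → X.t i = 1 := by
    intro i hi
    by_cases h : i = X.o
    · rw [h, X.t_o]
    · simp only [h, if_false, ne_eq, not_true_eq_false] at hi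
  have hH := Helper8.OS.hHEC I p X (fun i => if i = X.o then (1 : ℂ) else 0) hinv hsup j
  have hs : ∀ k, ∑ i, X.s k i * (if i = X.o then (1 : ℂ) else 0) = X.y k := by
    intro k
    rw [Finset.sum_eq_single X.o]
    · rw [if_pos rfl, mul_one, X.s_o]
    · intro i _ hi
      rw [if_neg hi, mul_zero]
    · intro h
      exact absurd (Finset.mem_univ _) h
  simp only [hs] at hH
  have h1 : ∑ k, X.s j k * (vp X k : ℂ) =
      (p : ℂ) * X.y j - ∑ k, if X.t k = 1 then X.s j k * (X.y k : ℂ) else 0 := by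
    have h2 : ∑ k, X.s j k * (if k = X.o then (p : ℂ) else 0) = (p : ℂ) * X.y j := by
      rw [Finset.sum_eq_single X.o]
      · rw [if_pos rfl, X.s_o]
        ring
      · intro i _ hi
        rw [if_neg hi, mul_zero]
      · intro h
        exact absurd (Finset.mem_univ _) h
    rw [← h2, ← Finset.sum_sub_distrib]
    apply Finset.sum_congr rfl
    intro k _
    unfold vp
    by_cases hk : k = X.o
    · by_cases ht : X.t k = 1
      · simp only [hk, if_true] at ht ⊢
        rw [if_pos ht, if_pos ht]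
        push_cast
        ring
      · simp only [hk, if_true] at ht ⊢
        rw [if_neg ht, if_neg ht]
        push_cast
        ring
    · by_cases ht : X.t k = 1
      · rw [if_neg hk, if_neg hk, if_pos ht, if_pos ht]
        push_cast
        ring
      · rw [if_neg hk, if_neg hk, if_neg ht, if_neg ht]
        push_cast
        ring
  rw [h1, hH]
  by_cases ht : X.t j = 1
  · by_cases hj : j = X.o
    · unfold vp
      rw [if_pos ht, if_pos ht, if_pos ht, if_pos hj, if_pos hj]
      push_cast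
      ring
    · unfold vp
      rw [if_pos ht, if_pos ht, if_pos ht, if_neg hj, if_neg hj]
      push_cast
      ring
  · have hj : j ≠ X.o := by
      intro h
      apply ht
      rw [h, X.t_o]
    unfold vp
    rw [if_neg ht, if_neg ht, if_neg ht, if_neg hj, if_neg hj]
    push_cast
    ring

theorem hVPF : StVPF := by
  intro hFCA hFCB I _ _ Z p b b' X hLk hb' hbb' hyp
  classical
  have hA := hFCA I Z
  have hB := hFCB hFCA I Z
  have hbb : b * b = b := hLk.idp.idem
  have hp0 : (p : ℂ) ≠ 0 := Nat.cast_ne_zero.mpr X.prime.ne_zero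
  set v : I → ℂ := fun k => (vp X k : ℂ) with hv
  set w : I → ℂ := fun k => if X.t k = 1 then 0 else (X.y k : ℂ) with hw
  have hFw : Fx Z b' w := by
    apply hB.sum
    intro j hj
    by_cases ht : X.t j = 1
    · simp only [hw, ht, if_true, ne_eq, not_true_eq_false] at hj
    · have hy : X.y j ≠ 0 := by
        intro h
        apply hj
        simp only [hw, ht, if_false, h, Int.cast_zero]
      exact hyp j hy ht
  set a : ℂ := -(1 / (p : ℂ)) with ha
  set c : ℂ := ((p : ℂ) + 1) / (p : ℂ) with hc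
  have hSv : ∀ j, (Z.rho (s2 b) *ᵥ v) j = a * v j + c * w j := by
    intro j
    have h1 := vpf_sv X j
    have h2 : ∑ k, X.s j k * (vp X k : ℂ) = (p : ℂ) * (Z.rho (s2 b) *ᵥ v) j := by
      rw [hLk.s]
      simp only [Matrix.mulVec, dotProduct, Finset.mul_sum, hv]
      apply Finset.sum_congr rfl
      intro k _
      ring
    rw [h2] at h1
    have h3 : (Z.rho (s2 b) *ᵥ v) j = (1 / (p : ℂ)) * (-(vp X j : ℂ) +
        ((p : ℂ) + 1) * (if X.t j = 1 then 0 else (X.y j : ℂ))) := by
      rw [← h1]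
      field_simp
    rw [h3, ha, hc]
    simp only [hv, hw]
    field_simp
  have hSv' : Z.rho (s2 b) *ᵥ v = a • v + c • w := by
    funext j
    rw [hSv j]
    simp only [Pi.add_apply, Pi.smul_apply, smul_eq_mul]
  have hna : ‖a‖ < 1 := by
    rw [ha, norm_neg, norm_div, norm_one, Complex.norm_natCast]
    have h2 : (2 : ℝ) ≤ (p : ℝ) := by exact_mod_cast X.prime.two_le
    rw [div_lt_one (by linarith)]
    linarith
  refine ⟨?_, ?_⟩
  · -- (2)
    have hcom := hA.com b b' hbb hb' hbb'
    have hδ : Z.rho (s2 b) *ᵥ (Z.rho (s2 b') *ᵥ v - v) =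
        a • (Z.rho (s2 b') *ᵥ v - v) := by
      have h1 : Z.rho (s2 b) *ᵥ (Z.rho (s2 b') *ᵥ v) = a • (Z.rho (s2 b') *ᵥ v) + c • w := by
        rw [Matrix.mulVec_mulVec, hcom, ← Matrix.mulVec_mulVec, hSv', Matrix.mulVec_add,
          Matrix.mulVec_smul, Matrix.mulVec_smul, hFw.1]
      rw [Matrix.mulVec_sub, h1, hSv', smul_sub]
      abel
    have h0 := vpf_zero (Z.rho (s2 b) *ᵥ (Z.rho (s2 b') *ᵥ v - v))
      (Z.rho (s2 b') *ᵥ v - v) a hna (fun i => by rw [hδ]; rfl) (hA.uni (s2 b) _)
    funext k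
    have h1 := h0 k
    rw [Pi.sub_apply] at h1
    exact sub_eq_zero.mp h1
  · -- (3)
    have hb'b : b' * b = 0 := by rw [mul_comm]; exact hbb'
    set D : I → ℂ := Z.tw b' with hD
    have hDw : ∀ j, D j * w j = w j := by
      intro j
      by_cases h : w j = 0
      · rw [h, mul_zero]
      · rw [hD, hFw.2 j h, one_mul]
    have hMD : ∀ j, (Z.rho (s2 b) *ᵥ (fun k => (D k - 1) * v k)) j =
        a * ((D j - 1) * v j) := by
      intro j
      have h1 : (Z.rho (s2 b) *ᵥ (fun k => (D k - 1) * v k)) j =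
          (D j - 1) * (Z.rho (s2 b) *ᵥ v) j := by
        simp only [Matrix.mulVec, dotProduct, Finset.mul_sum]
        apply Finset.sum_congr rfl
        intro k _
        by_cases h : Z.rho (s2 b) j k = 0
        · rw [h]
          ring
        · have h2 : Z.tw b' j = Z.tw b' k := hA.supp b' b hb' hbb hb'b j k h
          simp only [hD, h2]
          ring
      rw [h1, hSv j]
      have h2 := hDw j
      linear_combination c * h2
    have h0 := vpf_zero (Z.rho (s2 b) *ᵥ (fun k => (D k - 1) * v k))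
      (fun k => (D k - 1) * v k) a hna hMD (hA.uni (s2 b) _)
    intro k hk
    have h1 : (D k - 1) * v k = 0 := h0 k
    rcases mul_eq_zero.mp h1 with h | h
    · exact sub_eq_zero.mp h
    · exact absurd h hk

end Pool.Agent.Helper42.AL
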